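import Pool.Agent.H5.FL.Stm2

/-! Part ATN of crew FL (helper49). -/

set_option autoImplicit false

open Filter Topology

namespace H49.FL
open H5.FL

lemma atan_abs (x : ℝ) : |Real.arctan x| ≤ 2 := by
  have h1 := Real.arctan_lt_pi_div_two x
  have h2 := Real.neg_pi_div_two_lt_arctan x
  have h3 := Real.pi_le_four
  rw [abs_le]
  constructor <;> linarith

lemma inv_bd (x : ℝ) : 0 < 1 + x ^ 2 ∧ (1 + x ^ 2)⁻¹ ≤ 1 ∧ 0 ≤ (1 + x ^ 2)⁻¹ := by
  have h : (1 : ℝ) ≤ 1 + x ^ 2 := by nlinarith [sq_nonneg x]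
  exact ⟨by linarith, inv_le_one_of_one_le₀ h, by positivity⟩

lemma d1 : deriv (fun x : ℝ => Real.arctan x ^ 1) = fun x => (1 + x ^ 2)⁻¹ := by
  funext x
  simp only [pow_one]
  rw [Real.deriv_arctan]
  simp [one_div]

lemma hinv (x : ℝ) : HasDerivAt (fun x : ℝ => (1 + x ^ 2)⁻¹) (-(2 * x) / (1 + x ^ 2) ^ 2) x := by
  have h1 : HasDerivAt (fun x : ℝ => 1 + x ^ 2) (2 * x) x := by
    simpa using (hasDerivAt_pow 2 x).const_add 1
  exact h1.inv (inv_bd x).1.ne'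

lemma x_bd (x : ℝ) : |(-(2 * x) / (1 + x ^ 2) ^ 2)| ≤ 1 := by
  obtain ⟨h0, -, -⟩ := inv_bd x
  rw [abs_div, abs_of_pos (by positivity : (0 : ℝ) < (1 + x ^ 2) ^ 2), div_le_one (by positivity)]
  rw [abs_neg, abs_le]
  constructor <;> nlinarith [sq_nonneg (x - 1), sq_nonneg (x + 1), sq_nonneg (x ^ 2), sq_nonneg x]

lemma d2 : deriv (fun x : ℝ => Real.arctan x ^ 2) = fun x => 2 * Real.arctan x * (1 + x ^ 2)⁻¹ := by
  funext x
  have h := (Real.hasDerivAt_arctan x).pow 2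
  have h' : HasDerivAt (fun x : ℝ => Real.arctan x ^ 2)
      (2 * Real.arctan x * (1 + x ^ 2)⁻¹) x :=
    HasDerivAt.congr_deriv h (by norm_num)
  exact h'.deriv

theorem t_ATN : S_ATN := by
  rintro k (rfl | rfl)
  · refine ⟨Real.contDiff_arctan.pow 1, 10, fun x => ⟨?_, ?_, ?_⟩⟩
    · rw [pow_one]; linarith [atan_abs x]
    · rw [d1]
      obtain ⟨h0, h1, h2⟩ := inv_bd x
      simp only
      rw [abs_of_nonneg h2]; linarith
    · rw [d1, (hinv x).deriv]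
      linarith [x_bd x]
  · refine ⟨Real.contDiff_arctan.pow 2, 10, fun x => ⟨?_, ?_, ?_⟩⟩
    · rw [abs_pow]
      nlinarith [atan_abs x, abs_nonneg (Real.arctan x)]
    · rw [d2]
      obtain ⟨h0, h1, h2⟩ := inv_bd x
      simp only
      rw [abs_mul, abs_mul, abs_of_nonneg h2, abs_of_pos (by norm_num : (0 : ℝ) < 2)]
      nlinarith [atan_abs x, abs_nonneg (Real.arctan x)]
    · have h : HasDerivAt (fun x : ℝ => 2 * Real.arctan x * (1 + x ^ 2)⁻¹)
          (2 * (1 + x ^ 2)⁻¹ * (1 + x ^ 2)⁻¹ +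
            2 * Real.arctan x * (-(2 * x) / (1 + x ^ 2) ^ 2)) x := by
        have h1 : HasDerivAt (fun x : ℝ => 2 * Real.arctan x) (2 * (1 + x ^ 2)⁻¹) x := by
          exact HasDerivAt.congr_deriv ((Real.hasDerivAt_arctan x).const_mul 2) (by norm_num)
        exact h1.mul (hinv x)
      rw [d2, h.deriv]
      obtain ⟨h0, h1, h2⟩ := inv_bd x
      have e1 : |2 * (1 + x ^ 2)⁻¹ * (1 + x ^ 2)⁻¹| ≤ 2 := by
        rw [abs_mul, abs_mul, abs_of_nonneg h2, abs_of_pos (by norm_num : (0 : ℝ) < 2)]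
        nlinarith
      have e2 : |2 * Real.arctan x * (-(2 * x) / (1 + x ^ 2) ^ 2)| ≤ 4 := by
        rw [abs_mul, abs_mul, abs_of_pos (by norm_num : (0 : ℝ) < 2)]
        nlinarith [atan_abs x, abs_nonneg (Real.arctan x), x_bd x,
          abs_nonneg (-(2 * x) / (1 + x ^ 2) ^ 2)]
      have e3 := abs_add_le (2 * (1 + x ^ 2)⁻¹ * (1 + x ^ 2)⁻¹)
        (2 * Real.arctan x * (-(2 * x) / (1 + x ^ 2) ^ 2))
      linarith

end H49.FL
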