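import Pool.Agent.H5.FL.Stm2

/-! Part CHI of crew FL (helper49). -/

set_option autoImplicit false

open Filter Topology

namespace H49.FL
open H5.FL

lemma hasDerivAt_maxpow (n : ℕ) (x : ℝ) :
    HasDerivAt (fun y : ℝ => (max y 0) ^ (n + 2)) ((n + 2 : ℝ) * (max x 0) ^ (n + 1)) x := by
  rcases lt_trichotomy x 0 with hx | hx | hx
  · have h : (fun y : ℝ => (max y 0) ^ (n + 2)) =ᶠ[𝓝 x] fun _ => 0 := by
      filter_upwards [eventually_lt_nhds hx] with y hy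
      rw [max_eq_right hy.le]; simp
    rw [max_eq_right hx.le]
    simpa using (hasDerivAt_const x (0 : ℝ)).congr_of_eventuallyEq h
  · subst hx
    have h : (fun y : ℝ => (max y 0) ^ (n + 2)) =O[𝓝 0] fun y : ℝ => ‖y - 0‖ ^ (n + 2) := by
      refine Asymptotics.IsBigO.of_bound 1 (Filter.Eventually.of_forall fun y => ?_)
      rw [one_mul, sub_zero, norm_pow, norm_pow, norm_norm]
      gcongr
      rw [Real.norm_eq_abs, Real.norm_eq_abs, abs_of_nonneg (le_max_right _ _)]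
      exact max_le (le_abs_self y) (abs_nonneg y)
    have h1 := h.hasFDerivAt (𝕜 := ℝ) (by omega)
    have h2 := h1.hasDerivAt
    simpa using h2
  · have h : (fun y : ℝ => (max y 0) ^ (n + 2)) =ᶠ[𝓝 x] fun y => y ^ (n + 2) := by
      filter_upwards [eventually_gt_nhds hx] with y hy
      rw [max_eq_left hy.le]
    rw [max_eq_left hx.le]
    have h1 := (hasDerivAt_pow (n + 2) x).congr_of_eventuallyEq h
    exact HasDerivAt.congr_deriv h1 (by push_cast; rfl)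

/-- first derivative -/
noncomputable def c1 (η x : ℝ) : ℝ := (max x 0) ^ 2 * (x ^ 2 + 3 * η ^ 2) / (x ^ 2 + η ^ 2) ^ 2

/-- second derivative -/
noncomputable def c2 (η x : ℝ) : ℝ :=
  2 * η ^ 2 * (max x 0) * (3 * η ^ 2 - x ^ 2) / (x ^ 2 + η ^ 2) ^ 3

lemma mx (x : ℝ) : (max x 0) * (x - max x 0) = 0 := by
  rcases le_total x 0 with h | h
  · rw [max_eq_right h]; simp
  · rw [max_eq_left h]; simp

lemma mxsq (x : ℝ) : (max x 0) ^ 2 ≤ x ^ 2 := by
  rcases le_total x 0 with h | h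
  · rw [max_eq_right h]; simp only [ne_eq, OfNat.ofNat_ne_zero, not_false_eq_true, zero_pow]; positivity
  · rw [max_eq_left h]

variable {η : ℝ}

lemma Dpos (hη : 0 < η) (x : ℝ) : 0 < x ^ 2 + η ^ 2 := by positivity

lemma hD (x : ℝ) (c : ℝ) : HasDerivAt (fun y : ℝ => y ^ 2 + c) (2 * x) x := by
  simpa using (hasDerivAt_pow 2 x).add_const c

lemma hchi (hη : 0 < η) (x : ℝ) : HasDerivAt (chi η) (c1 η x) x := by
  have h0 := (Dpos hη x).ne'
  have h := (hasDerivAt_maxpow 1 x).div (hD x (η ^ 2)) h0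
  have e : (chi η) = fun y : ℝ => (max y 0) ^ (1 + 2) / (y ^ 2 + η ^ 2) := by
    funext y; rfl
  rw [e]
  refine HasDerivAt.congr_deriv h ?_
  unfold c1
  congr 1
  have hm := mx x
  push_cast
  linear_combination (2 * (max x 0) * x) * hm

lemma hc1 (hη : 0 < η) (x : ℝ) : HasDerivAt (c1 η) (c2 η x) x := by
  have h0 := (Dpos hη x).ne'
  have hN : HasDerivAt (fun y : ℝ => (max y 0) ^ (0 + 2) * (y ^ 2 + 3 * η ^ 2)) _ x :=
    (hasDerivAt_maxpow 0 x).mul (hD x (3 * η ^ 2))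
  have hDD : HasDerivAt (fun y : ℝ => (y ^ 2 + η ^ 2) ^ 2) _ x := (hD x (η ^ 2)).pow 2
  have h := hN.div hDD (pow_ne_zero 2 h0)
  have e : (c1 η) = fun y : ℝ => (max y 0) ^ (0 + 2) * (y ^ 2 + 3 * η ^ 2) / (y ^ 2 + η ^ 2) ^ 2 := by
    funext y; rfl
  rw [e]
  refine HasDerivAt.congr_deriv h ?_
  unfold c2
  rw [div_eq_div_iff (pow_ne_zero 2 (pow_ne_zero 2 h0)) (pow_ne_zero 3 h0)]
  have hm := mx x
  rcases le_total x 0 with hx | hx
  · rw [max_eq_right hx]; simp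
  · rw [max_eq_left hx]
    push_cast
    ring

lemma chi_contDiff (hη : 0 < η) : ContDiff ℝ 2 (chi η) := by
  have e1 : deriv (chi η) = c1 η := funext fun x => (hchi hη x).deriv
  have e2 : deriv (c1 η) = c2 η := funext fun x => (hc1 hη x).deriv
  have h1 : ContDiff ℝ 1 (c1 η) := by
    rw [contDiff_one_iff_deriv]
    refine ⟨fun x => (hc1 hη x).differentiableAt, ?_⟩
    rw [e2]
    unfold c2
    refine Continuous.div ?_ ?_ fun x => pow_ne_zero 3 (Dpos hη x).ne'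
    · fun_prop
    · fun_prop
  have : (2 : WithTop ℕ∞) = 1 + 1 := by norm_num
  rw [this, contDiff_succ_iff_deriv]
  refine ⟨fun x => (hchi hη x).differentiableAt, ?_, ?_⟩
  · intro h; exact absurd h (by simp)
  · rw [e1]; exact h1

lemma m0 (x : ℝ) : 0 ≤ max x 0 := le_max_right _ _

lemma c1_nonneg (hη : 0 < η) (x : ℝ) : 0 ≤ c1 η x := by
  unfold c1
  have := Dpos hη x
  have := m0 x
  positivity

lemma c1_le (hη : 0 < η) (x : ℝ) : c1 η x ≤ 2 := by
  unfold c1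
  have hp := Dpos hη x
  rw [div_le_iff₀ (by positivity)]
  have h1 := mxsq x
  have h2 : (max x 0) ^ 2 * (x ^ 2 + 3 * η ^ 2) ≤ x ^ 2 * (x ^ 2 + 3 * η ^ 2) := by gcongr
  nlinarith [sq_nonneg (x ^ 2), sq_nonneg (η ^ 2), mul_nonneg (sq_nonneg x) (sq_nonneg η)]

lemma chi_nonneg (hη : 0 < η) (x : ℝ) : 0 ≤ chi η x := by
  unfold chi
  have := Dpos hη x
  have := m0 x
  positivity

lemma chi_mono (hη : 0 < η) : Monotone (chi η) :=
  monotone_of_deriv_nonneg (fun x => (hchi hη x).differentiableAt) fun x => by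
    rw [(hchi hη x).deriv]; exact c1_nonneg hη x

lemma wEr_nonneg (hη : 0 < η) (x : ℝ) : 0 ≤ wEr η x := by
  unfold wEr
  have := Dpos hη x
  positivity

lemma wEr_le (hη : 0 < η) (x : ℝ) : wEr η x ≤ 1 := by
  unfold wEr
  have hp := Dpos hη x
  rw [div_le_one (by positivity)]
  have h1 : 0 ≤ (x ^ 2) ^ 4 := by positivity
  have h2 : 0 ≤ (x ^ 2) ^ 3 * η ^ 2 := by positivity
  have h3 : 0 ≤ x ^ 2 * (η ^ 2) ^ 3 := by positivity
  have h4 : 0 ≤ (η ^ 2) ^ 4 := by positivity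
  have e : (x ^ 2 + η ^ 2) ^ 4 = (x ^ 2) ^ 4 + 4 * ((x ^ 2) ^ 3 * η ^ 2) + 6 * η ^ 4 * x ^ 4
      + 4 * (x ^ 2 * (η ^ 2) ^ 3) + (η ^ 2) ^ 4 := by ring
  rw [e]
  linarith

lemma c2_bd (hη : 0 < η) (x : ℝ) : |c2 η x| ≤ 3 / η := by
  unfold c2
  have hp := Dpos hη x
  have hm := m0 x
  rw [abs_div, abs_of_pos (by positivity : 0 < (x ^ 2 + η ^ 2) ^ 3), div_le_div_iff₀ (by positivity) hη]
  have h1 : max x 0 ≤ |x| := max_le (le_abs_self x) (abs_nonneg x)
  have h2 : 2 * η * |x| ≤ x ^ 2 + η ^ 2 := by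
    nlinarith [sq_nonneg (|x| - η), sq_abs x]
  have h3 : |3 * η ^ 2 - x ^ 2| ≤ 3 * (x ^ 2 + η ^ 2) := by
    rw [abs_le]
    constructor <;> nlinarith [sq_nonneg x, sq_nonneg η]
  rw [abs_mul, abs_of_nonneg (by positivity : 0 ≤ 2 * η ^ 2 * max x 0)]
  have h4 : 2 * η ^ 2 * max x 0 ≤ η * (x ^ 2 + η ^ 2) := by
    nlinarith [mul_le_mul_of_nonneg_left h1 (by positivity : (0 : ℝ) ≤ 2 * η ^ 2)]
  have h5 : 2 * η ^ 2 * max x 0 * |3 * η ^ 2 - x ^ 2| ≤
      (η * (x ^ 2 + η ^ 2)) * (3 * (x ^ 2 + η ^ 2)) := by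
    gcongr
  have h6 : η ^ 2 ≤ x ^ 2 + η ^ 2 := by nlinarith [sq_nonneg x]
  calc 2 * η ^ 2 * max x 0 * |3 * η ^ 2 - x ^ 2| * η
      ≤ (η * (x ^ 2 + η ^ 2)) * (3 * (x ^ 2 + η ^ 2)) * η := by gcongr
    _ = 3 * (x ^ 2 + η ^ 2) ^ 2 * η ^ 2 := by ring
    _ ≤ 3 * (x ^ 2 + η ^ 2) ^ 2 * (x ^ 2 + η ^ 2) := by gcongr
    _ = 3 * (x ^ 2 + η ^ 2) ^ 3 := by ring

theorem t_CHI : S_CHI := by
  intro η hη
  have e1 : deriv (chi η) = c1 η := funext fun x => (hchi hη x).deriv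
  have e2 : deriv (c1 η) = c2 η := funext fun x => (hc1 hη x).deriv
  refine ⟨chi_contDiff hη, fun x => ⟨chi_nonneg hη x, ?_⟩, ?_, ?_, ?_, ⟨3 / η, ?_⟩, ?_,
    fun x => ⟨wEr_nonneg hη x, wEr_le hη x⟩⟩
  · unfold chi
    have hp := Dpos hη x
    rw [div_le_iff₀ hp]
    have hm := m0 x
    have h1 := mxsq x
    have h2 : (max x 0) ^ 3 = max x 0 * (max x 0) ^ 2 := by ring
    rw [h2]
    have : (max x 0) ^ 2 ≤ x ^ 2 + η ^ 2 := by nlinarith [sq_nonneg η]
    gcongr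
  · intro x hx
    unfold chi
    rw [max_eq_right hx]; simp
  · intro x
    rw [e1]
    exact ⟨c1_nonneg hη x, c1_le hη x⟩
  · intro x hx
    rw [e1, e2]
    unfold c1 c2
    rw [max_eq_right hx]
    simp
  · intro x
    rw [e1, e2]
    exact c2_bd hη x
  · intro x y hyx
    rw [e1, e2]
    have hp := Dpos hη x
    rcases le_or_gt x 0 with hx | hx
    · have : c2 η x = 0 := by
        unfold c2; rw [max_eq_right hx]; simp
      rw [this, zero_mul]
      exact wEr_nonneg hη x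
    · rcases le_or_gt (c2 η x) 0 with h | h
      · exact (mul_nonpos_of_nonpos_of_nonneg h (chi_nonneg hη y)).trans (wEr_nonneg hη x)
      · refine (mul_le_mul_of_nonneg_left (chi_mono hη hyx) h.le).trans ?_
        unfold c2 chi wEr
        rw [max_eq_left hx.le, div_mul_div_comm, ← pow_succ]
        refine div_le_div_of_nonneg_right ?_ (by positivity)
        have : 0 ≤ 2 * η ^ 2 * x ^ 6 := by positivity
        nlinarith [this]

end H49.FL
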