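import Pool.Agent.H5.FL.Stm2

/-! Part CHL of crew FL (helper49). -/

set_option autoImplicit false

open Filter Topology

namespace H49.FL
open H5.FL

theorem t_CHL : S_CHL := by
  intro x
  have h0 : Tendsto (fun n : ℕ => 1 / ((n : ℝ) + 1)) atTop (𝓝 0) :=
    tendsto_one_div_add_atTop_nhds_zero_nat
  by_cases hx : x = 0
  · subst hx
    constructor
    · simp [chi]
    · simp [wEr]
  · have hx2 : x ^ 2 ≠ 0 := pow_ne_zero 2 hx
    constructor
    · unfold chi
      have h1 : Tendsto (fun n : ℕ => (max x 0) ^ 3 / (x ^ 2 + (1 / ((n : ℝ) + 1)) ^ 2)) atTop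
          (𝓝 ((max x 0) ^ 3 / (x ^ 2 + 0 ^ 2))) :=
        tendsto_const_nhds.div (tendsto_const_nhds.add (h0.pow 2)) (by simpa using hx2)
      convert h1 using 2
      rcases le_total x 0 with h | h
      · rw [max_eq_right h]; simp
      · rw [max_eq_left h]
        field_simp
        simp
    · unfold wEr
      have h1 : Tendsto (fun n : ℕ => 6 * (1 / ((n : ℝ) + 1)) ^ 4 * x ^ 4 /
          (x ^ 2 + (1 / ((n : ℝ) + 1)) ^ 2) ^ 4) atTop
          (𝓝 (6 * 0 ^ 4 * x ^ 4 / (x ^ 2 + 0 ^ 2) ^ 4)) := by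
        refine Tendsto.div ?_ ?_ ?_
        · exact (tendsto_const_nhds.mul (h0.pow 4)).mul tendsto_const_nhds
        · exact (tendsto_const_nhds.add (h0.pow 2)).pow 4
        · simpa using hx
      simpa using h1

end H49.FL
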